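import Pool.Agent.H82.C3.Stm

/-! Part BOX of project C3. -/

set_option autoImplicit false

namespace Pool.Agent.H44.C3

open Finset Pool.Agent.H82.C3

theorem imul {x y a b c d : ℝ} (ha : 0 ≤ a) (h1 : a ≤ x) (h2 : x ≤ b) (hc : 0 ≤ c) (h3 : c ≤ y)
    (h4 : y ≤ d) : a * c ≤ x * y ∧ x * y ≤ b * d :=
  ⟨mul_le_mul h1 h3 hc (ha.trans h1), mul_le_mul h2 h4 (hc.trans h3) ((ha.trans h1).trans h2)⟩

/-- interval arithmetic -/
theorem box_real (α β ξ η : ℝ) (ha : 1 ≤ α) (ha' : α ≤ 101 / 100) (hb : 102 / 100 ≤ β)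
    (hb' : β ≤ 103 / 100) (hx : 2 ≤ ξ) (hx' : ξ ≤ 201 / 100) (hy : 0 ≤ η) (hy' : η ≤ 1 / 100) :
    (3 ≤ α ^ 2 + α * β + β ^ 2 ∧ α ^ 2 + α * β + β ^ 2 ≤ 32 / 10) ∧
    (19 / 10 ≤ α * ξ - β * η ∧ α * ξ - β * η ≤ 21 / 10) ∧
    (0 < (β - α) * ξ + (α + 2 * β) * η ∧ (β - α) * ξ + (α + 2 * β) * η ≤ 1 / 10) ∧
    (3 ≤ ξ ^ 2 + ξ * η + η ^ 2 - ((β - α) * ξ + (α + 2 * β) * η) * (α ^ 2 + α * β + β ^ 2) ∧
      ξ ^ 2 + ξ * η + η ^ 2 - ((β - α) * ξ + (α + 2 * β) * η) * (α ^ 2 + α * β + β ^ 2)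
        ≤ 41 / 10) ∧
    (15 ≤ 4 * (α * ξ - β * η) ^ 3 - (ξ ^ 2 + ξ * η + η ^ 2 -
      ((β - α) * ξ + (α + 2 * β) * η) * (α ^ 2 + α * β + β ^ 2)) ^ 2 ∧
      4 * (α * ξ - β * η) ^ 3 - (ξ ^ 2 + ξ * η + η ^ 2 -
      ((β - α) * ξ + (α + 2 * β) * η) * (α ^ 2 + α * β + β ^ 2)) ^ 2 ≤ 20) ∧
    (-4 ≤ 3 * (α * ξ - β * η) + 2 * ((β - α) * ξ + (α + 2 * β) * η) -
      (α ^ 2 + α * β + β ^ 2) ^ 2 ∧ 3 * (α * ξ - β * η) + 2 * ((β - α) * ξ + (α + 2 * β) * η) -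
      (α ^ 2 + α * β + β ^ 2) ^ 2 ≤ 4) := by
  -- products
  obtain ⟨a1, a2⟩ := imul (by norm_num) ha ha' (by norm_num) ha ha'
  obtain ⟨b1, b2⟩ := imul (by norm_num) hb hb' (by norm_num) hb hb'
  obtain ⟨c1, c2⟩ := imul (by norm_num) ha ha' (by norm_num) hb hb'
  obtain ⟨d1, d2⟩ := imul (by norm_num) ha ha' (by norm_num) hx hx'
  obtain ⟨e1, e2⟩ := imul (by norm_num) hb hb' le_rfl hy hy'
  obtain ⟨h1, h2⟩ := imul (by norm_num) hx hx' (by norm_num) hx hx'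
  obtain ⟨i1, i2⟩ := imul (by norm_num) hx hx' le_rfl hy hy'
  obtain ⟨j1, j2⟩ := imul le_rfl hy hy' le_rfl hy hy'
  have q1 : (1 / 100 : ℝ) ≤ β - α := by linarith
  have q2 : β - α ≤ 3 / 100 := by linarith
  obtain ⟨f1, f2⟩ := imul (by norm_num) q1 q2 (by norm_num) hx hx'
  have q3 : (0 : ℝ) ≤ α + 2 * β := by linarith
  have q4 : α + 2 * β ≤ 307 / 100 := by linarith
  obtain ⟨g1, g2⟩ := imul le_rfl q3 q4 le_rfl hy hy'
  have hP : α ^ 2 + α * β + β ^ 2 = α * α + α * β + β * β := by ring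
  have hX : ξ ^ 2 + ξ * η + η ^ 2 = ξ * ξ + ξ * η + η * η := by ring
  rw [hP, hX]
  generalize hPe : α * α + α * β + β * β = P at *
  have P1 : 30604 / 10000 ≤ P := by rw [← hPe]; linarith
  have P2 : P ≤ 31213 / 10000 := by rw [← hPe]; linarith
  generalize hMe : α * ξ - β * η = M at *
  have M1 : 19897 / 10000 ≤ M := by rw [← hMe]; linarith
  have M2 : M ≤ 20301 / 10000 := by rw [← hMe]; linarith
  generalize hUe : (β - α) * ξ + (α + 2 * β) * η = U at *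
  have U1 : 2 / 100 ≤ U := by rw [← hUe]; linarith
  have U2 : U ≤ 91 / 1000 := by rw [← hUe]; linarith
  obtain ⟨k1, k2⟩ := imul (by norm_num) U1 U2 (by norm_num) P1 P2
  generalize hNe : ξ * ξ + ξ * η + η * η - U * P = N at *
  have N1 : 3715 / 1000 ≤ N := by rw [← hNe]; linarith
  have N2 : N ≤ 39992 / 10000 := by rw [← hNe]; linarith
  obtain ⟨l1, l2⟩ := imul (by norm_num) M1 M2 (by norm_num) M1 M2
  obtain ⟨m1, m2⟩ := imul (by norm_num) l1 l2 (by norm_num) M1 M2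
  obtain ⟨n1, n2⟩ := imul (by norm_num) N1 N2 (by norm_num) N1 N2
  obtain ⟨o1, o2⟩ := imul (by norm_num) P1 P2 (by norm_num) P1 P2
  have hM3 : M ^ 3 = M * M * M := by ring
  have hN2 : N ^ 2 = N * N := by ring
  have hP2 : P ^ 2 = P * P := by ring
  rw [hM3, hN2, hP2]
  refine ⟨⟨by linarith, by linarith⟩, ⟨by linarith, by linarith⟩, ⟨by linarith, by linarith⟩,
    ⟨by linarith, by linarith⟩, ⟨by linarith, by linarith⟩, by linarith, by linarith⟩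

theorem t_BOX : S_BOX := by
  intro W T hW hT z hz u hu
  obtain ⟨i, j, k, l⟩ := z
  simp only [dat, mem_product, mem_range] at hz
  obtain ⟨hi, hj, hk, hl⟩ := hz
  have hWr : (1 : ℝ) ≤ W := by exact_mod_cast hW
  have hTr : (1 : ℝ) ≤ T := by exact_mod_cast hT
  have hi' : (i : ℝ) + 1 ≤ T := by exact_mod_cast hi
  have hj' : (j : ℝ) + 1 ≤ T := by exact_mod_cast hj
  have hk' : (k : ℝ) + 1 ≤ (T : ℝ) ^ 3 := by exact_mod_cast hk
  have hl' : (l : ℝ) + 1 ≤ (T : ℝ) ^ 3 := by exact_mod_cast hl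
  have hi0 : (0 : ℝ) ≤ i := Nat.cast_nonneg i
  have hj0 : (0 : ℝ) ≤ j := Nat.cast_nonneg j
  have hk0 : (0 : ℝ) ≤ k := Nat.cast_nonneg k
  have hl0 : (0 : ℝ) ≤ l := Nat.cast_nonneg l
  have hur : (u : ℝ) = 200 * W * T := by
    rw [hu]
    push_cast
    ring
  set v : ℝ := (u : ℝ) with hv
  have hv0 : 0 < v := by
    rw [hur]
    positivity
  have hv3 : v ^ 3 = 8000000 * (W : ℝ) ^ 3 * T ^ 3 := by
    rw [hur]
    ring
  have hv3pos : 0 < v ^ 3 := by positivity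
  -- the four coordinates
  have ea1 : ((ea W T i : ℤ) : ℝ) = 200 * W * T + 1 + 2 * W * i := by
    unfold ea
    push_cast
    ring
  have eb1 : ((eb W T j : ℤ) : ℝ) = 204 * W * T + W + 2 * W * j := by
    unfold eb
    push_cast
    ring
  have ex1 : ((ex W T k : ℤ) : ℝ) = 16000000 * W ^ 3 * T ^ 3 + W + 2 * W * k := by
    unfold ex
    push_cast
    ring
  have ey1 : ((ey W l : ℤ) : ℝ) = 2 + 2 * W * l := by
    unfold ey
    push_cast
    ring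
  set a : ℝ := ((ea W T i : ℤ) : ℝ) with ha
  set b : ℝ := ((eb W T j : ℤ) : ℝ) with hb
  set x : ℝ := ((ex W T k : ℤ) : ℝ) with hx
  set y : ℝ := ((ey W l : ℤ) : ℝ) with hy
  have hWi : (W : ℝ) * i + W ≤ W * T := by nlinarith
  have hWj : (W : ℝ) * j + W ≤ W * T := by nlinarith
  have hWk : (W : ℝ) * k + W ≤ W * T ^ 3 := by nlinarith
  have hWl : (W : ℝ) * l + W ≤ W * T ^ 3 := by nlinarith
  have hWi0 : 0 ≤ (W : ℝ) * i := by positivity
  have hWj0 : 0 ≤ (W : ℝ) * j := by positivity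
  have hWk0 : 0 ≤ (W : ℝ) * k := by positivity
  have hWl0 : 0 ≤ (W : ℝ) * l := by positivity
  have hW3 : (W : ℝ) * T ^ 3 ≤ W ^ 3 * T ^ 3 := by
    have h1 : (W : ℝ) ≤ W ^ 3 := by nlinarith [sq_nonneg ((W : ℝ) - 1), mul_nonneg (sub_nonneg.2 hWr) (sub_nonneg.2 hWr)]
    have h2 : 0 ≤ (T : ℝ) ^ 3 := by positivity
    exact mul_le_mul_of_nonneg_right h1 h2
  obtain ⟨⟨r1, r2⟩, ⟨r3, r4⟩, ⟨r5, r6⟩, ⟨r7, r8⟩, ⟨r9, r10⟩, r11, r12⟩ :=
    box_real (a / v) (b / v) (x / v ^ 3) (y / v ^ 3)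
      (by rw [le_div_iff₀ hv0, ea1, hur]; linarith)
      (by rw [div_le_iff₀ hv0, ea1, hur]; linarith)
      (by rw [le_div_iff₀ hv0, eb1, hur]; linarith)
      (by rw [div_le_iff₀ hv0, eb1, hur]; linarith)
      (by rw [le_div_iff₀ hv3pos, ex1, hv3]; linarith)
      (by rw [div_le_iff₀ hv3pos, ex1, hv3]; linarith)
      (by rw [ey1]; positivity)
      (by rw [div_le_iff₀ hv3pos, ey1, hv3]; linarith)
  have sp : ((pD W T (i, j, k, l) : ℤ) : ℝ) =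
      v ^ 2 * ((a / v) ^ 2 + a / v * (b / v) + (b / v) ^ 2) := by
    unfold pD pp
    push_cast
    simp only [← ha, ← hb]
    field_simp
  have sm : ((mD W T (i, j, k, l) : ℤ) : ℝ) =
      v ^ 4 * (a / v * (x / v ^ 3) - b / v * (y / v ^ 3)) := by
    unfold mD mm
    push_cast
    simp only [← ha, ← hb, ← hx, ← hy]
    field_simp
  have st : ((tD W T (i, j, k, l) : ℤ) : ℝ) =
      v ^ 4 * ((b / v - a / v) * (x / v ^ 3) + (a / v + 2 * (b / v)) * (y / v ^ 3)) := by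
    unfold tD tt
    push_cast
    simp only [← ha, ← hb, ← hx, ← hy]
    field_simp
  have sn : ((nD W T (i, j, k, l) : ℤ) : ℝ) =
      v ^ 6 * ((x / v ^ 3) ^ 2 + x / v ^ 3 * (y / v ^ 3) + (y / v ^ 3) ^ 2 -
        ((b / v - a / v) * (x / v ^ 3) + (a / v + 2 * (b / v)) * (y / v ^ 3)) *
          ((a / v) ^ 2 + a / v * (b / v) + (b / v) ^ 2)) := by
    unfold nD nn tt pp
    push_cast
    simp only [← ha, ← hb, ← hx, ← hy]
    field_simp
  set P := (a / v) ^ 2 + a / v * (b / v) + (b / v) ^ 2 with hP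
  set M := a / v * (x / v ^ 3) - b / v * (y / v ^ 3) with hM
  set U := (b / v - a / v) * (x / v ^ 3) + (a / v + 2 * (b / v)) * (y / v ^ 3) with hU
  set N := (x / v ^ 3) ^ 2 + x / v ^ 3 * (y / v ^ 3) + (y / v ^ 3) ^ 2 - U * P with hN
  have sD : ((DV W T (i, j, k, l) : ℤ) : ℝ) = v ^ 12 * (4 * M ^ 3 - N ^ 2) := by
    unfold DV DD
    push_cast
    rw [sm, sn]
    ring
  have v2 : 0 < v ^ 2 := by positivity
  have v4 : 0 < v ^ 4 := by positivity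
  have v6 : 0 < v ^ 6 := by positivity
  have v12 : 0 < v ^ 12 := by positivity
  have fin : ∀ c d : ℤ, (c : ℝ) ≤ d → c ≤ d := fun c d h => by exact_mod_cast h
  have fin' : ∀ c d : ℤ, (c : ℝ) < d → c < d := fun c d h => by exact_mod_cast h
  have s1 := mul_le_mul_of_nonneg_left r1 v2.le
  have s2 := mul_le_mul_of_nonneg_left r2 v2.le
  have s3 := mul_le_mul_of_nonneg_left r3 v4.le
  have s4 := mul_le_mul_of_nonneg_left r4 v4.le
  have s5 := mul_pos v4 r5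
  have s6 := mul_le_mul_of_nonneg_left r6 v4.le
  have s7 := mul_le_mul_of_nonneg_left r7 v6.le
  have s8 := mul_le_mul_of_nonneg_left r8 v6.le
  have s9 := mul_le_mul_of_nonneg_left r9 v12.le
  have s10 := mul_le_mul_of_nonneg_left r10 v12.le
  have s11 := mul_le_mul_of_nonneg_left r11 v4.le
  have s12 := mul_le_mul_of_nonneg_left r12 v4.le
  clear_value P M U N
  rw [← sp] at s1 s2
  rw [← sm] at s3 s4
  rw [← st] at s5 s6
  rw [← sn] at s7 s8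
  rw [← sD] at s9 s10
  have s13 : v ^ 4 * (3 * M + 2 * U - P ^ 2) = 3 * ((mD W T (i, j, k, l) : ℤ) : ℝ) +
      2 * ((tD W T (i, j, k, l) : ℤ) : ℝ) - ((pD W T (i, j, k, l) : ℤ) : ℝ) ^ 2 := by
    rw [sp, sm, st]
    ring
  rw [s13] at s11 s12
  refine ⟨⟨fin _ _ ?_, fin _ _ ?_⟩, ⟨fin _ _ ?_, fin _ _ ?_⟩, ⟨fin' _ _ ?_, fin _ _ ?_⟩,
    ⟨fin _ _ ?_, fin _ _ ?_⟩, ⟨fin _ _ ?_, fin _ _ ?_⟩, fin _ _ ?_⟩
  · push_cast
    linarith
  · push_cast
    linarith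
  · push_cast
    linarith
  · push_cast
    linarith
  · push_cast
    linarith
  · push_cast
    linarith
  · push_cast
    linarith
  · push_cast
    linarith
  · push_cast
    linarith
  · push_cast
    linarith
  · push_cast
    rw [abs_le]
    constructor <;> linarith

end Pool.Agent.H44.C3
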