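import Pool.Agent.H82.C3.Stm
import Pool.Graph.R_seed8.H510R2.Div

/-! Parts PAIR and BV1 of project C3. -/

set_option autoImplicit false

namespace Pool.Agent.H44.C3

open Finset Pool.Agent.H82.C3

theorem DD_eq {m n m' n' : ℤ} (h : DD m n = DD m' n') :
    (n - n') * (n + n') = 4 * (m ^ 3 - m' ^ 3) := by
  unfold DD at h
  linear_combination -h

/-- the pairs over given first coordinates are determined by `n + n'` -/
theorem t_PAIR : S_PAIR := by
  classical
  intro A ε hε
  have hδ : 0 < ε / 12 := by positivity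
  obtain ⟨C, hC, hdiv⟩ := Pool.Agent.H510R2.divisor_bound (ε / 12) hδ
  -- the constant
  refine ⟨((A : ℝ) ^ 2 + 1) * (C * (4 * (A : ℝ) ^ 3 + 4) ^ (ε / 12)), by positivity, ?_⟩
  intro T hT V hV
  have hT1 : (1 : ℝ) ≤ T := by exact_mod_cast hT
  have hT0 : (0 : ℝ) ≤ T := by positivity
  set F := (V ×ˢ V).filter (fun z => DD z.1.1 z.1.2 = DD z.2.1 z.2.2) with hF
  -- split
  set F1 := F.filter (fun z => z.1.1 = z.2.1) with hF1
  set F2 := F.filter (fun z => ¬ z.1.1 = z.2.1) with hF2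
  have hsplit : F.card = F1.card + F2.card := (Finset.card_filter_add_card_filter_not _).symm
  -- the diagonal
  have hc1 : F1.card ≤ V.card := by
    apply Finset.card_le_card_of_injOn (fun z => z.1)
    · intro z hz
      rw [mem_coe, hF1, mem_filter, hF, mem_filter, mem_product] at hz
      exact hz.1.1.1
    · intro z hz z' hz' hzz
      rw [mem_coe, hF1, mem_filter, hF, mem_filter, mem_product] at hz hz'
      have key : ∀ w : (ℤ × ℤ) × (ℤ × ℤ), w.1 ∈ V → w.2 ∈ V → DD w.1.1 w.1.2 = DD w.2.1 w.2.2 →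
          w.1.1 = w.2.1 → w.2 = w.1 := by
        intro w h1 h2 h3 h4
        have e1 := DD_eq h3
        rw [h4, sub_self, mul_zero] at e1
        have p1 := (hV _ h1).2.2.1
        have p2 := (hV _ h2).2.2.1
        rcases mul_eq_zero.1 e1 with e | e
        · exact Prod.ext h4.symm (by linarith)
        · exfalso
          linarith
      have e1 := key z hz.1.1.1 hz.1.1.2 hz.1.2 hz.2
      have e2 := key z' hz'.1.1.1 hz'.1.1.2 hz'.1.2 hz'.2
      have hzz' : z.1 = z'.1 := hzz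
      exact Prod.ext hzz' (by rw [e1, e2, hzz'])
  -- the other pairs
  set B : ℝ := C * (4 * (A : ℝ) ^ 3 + 4) ^ (ε / 12) * (T : ℝ) ^ ε with hB
  have hB0 : 0 ≤ B := by positivity
  set I := Icc (1 : ℤ) (A * (T : ℤ) ^ 4) with hI
  have hIc : (I.card : ℝ) = A * (T : ℝ) ^ 4 := by
    rw [hI, Int.card_Icc]
    have : (A * (T : ℤ) ^ 4 + 1 - 1).toNat = A * T ^ 4 := by
      rw [add_sub_cancel_right]
      have h1 : (A * (T : ℤ) ^ 4) = ((A * T ^ 4 : ℕ) : ℤ) := by push_cast; ring
      rw [h1, Int.toNat_natCast]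
    rw [this]
    push_cast
    ring
  have hc2 : F2.card ≤ ⌊B⌋₊ * (I ×ˢ I).card := by
    apply Finset.card_le_mul_card_image_of_maps_to (f := fun z => (z.1.1, z.2.1))
    · intro z hz
      rw [hF2, mem_filter, hF, mem_filter, mem_product] at hz
      rw [mem_product, hI, mem_Icc, mem_Icc]
      exact ⟨⟨(hV _ hz.1.1.1).1, (hV _ hz.1.1.1).2.1⟩, ⟨(hV _ hz.1.1.2).1, (hV _ hz.1.1.2).2.1⟩⟩
    · rintro ⟨m, m'⟩ hmm
      rw [mem_product, hI, mem_Icc, mem_Icc] at hmm
      apply Nat.le_floor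
      by_cases hne : m = m'
      · have h0 : F2.filter (fun z => (z.1.1, z.2.1) = (m, m')) = ∅ := by
          rw [Finset.filter_eq_empty_iff]
          intro z hz h1
          rw [hF2, mem_filter] at hz
          apply hz.2
          have h2 := (Prod.mk.injEq _ _ _ _).mp h1
          rw [h2.1, h2.2, hne]
        rw [h0, Finset.card_empty, Nat.cast_zero]
        exact hB0
      · set k : ℕ := (4 * (m ^ 3 - m' ^ 3)).natAbs with hk
        have hcub : m ^ 3 - m' ^ 3 ≠ 0 := by
          intro h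
          apply hne
          have : m ^ 3 = m' ^ 3 := by linarith
          exact (Odd.strictMono_pow (by decide : Odd 3)).injective this
        have hk0 : 1 ≤ k := by
          rw [hk]
          exact Nat.one_le_iff_ne_zero.2 (Int.natAbs_ne_zero.2 (mul_ne_zero (by norm_num) hcub))
        have hcard : (F2.filter (fun z => (z.1.1, z.2.1) = (m, m'))).card ≤ k.divisors.card := by
          apply Finset.card_le_card_of_injOn (fun z => (z.1.2 + z.2.2).natAbs)
          · intro z hz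
            rw [mem_coe, mem_filter, hF2, mem_filter, hF, mem_filter, mem_product] at hz
            obtain ⟨⟨⟨⟨z1, z2⟩, z3⟩, z4⟩, z5⟩ := hz
            have h2 := (Prod.mk.injEq _ _ _ _).mp z5
            have e1 := DD_eq z3
            rw [h2.1, h2.2] at e1
            rw [mem_coe, Nat.mem_divisors]
            refine ⟨?_, by omega⟩
            rw [hk, Int.natAbs_dvd_natAbs, ← e1]
            exact dvd_mul_left _ _
          · intro z hz z' hz' hzz
            rw [mem_coe, mem_filter, hF2, mem_filter, hF, mem_filter, mem_product] at hz hz'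
            obtain ⟨⟨⟨⟨z1, z2⟩, z3⟩, z4⟩, z5⟩ := hz
            obtain ⟨⟨⟨⟨y1, y2⟩, y3⟩, y4⟩, y5⟩ := hz'
            have h2 := (Prod.mk.injEq _ _ _ _).mp z5
            have h3 := (Prod.mk.injEq _ _ _ _).mp y5
            have e1 := DD_eq z3
            have e2 := DD_eq y3
            rw [h2.1, h2.2] at e1
            rw [h3.1, h3.2] at e2
            have p1 := (hV _ z1).2.2.1
            have p2 := (hV _ z2).2.2.1
            have p3 := (hV _ y1).2.2.1
            have p4 := (hV _ y2).2.2.1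
            have hs : z.1.2 + z.2.2 = z'.1.2 + z'.2.2 := by
              have hzz' : (z.1.2 + z.2.2).natAbs = (z'.1.2 + z'.2.2).natAbs := hzz
              omega
            have hpos : z.1.2 + z.2.2 ≠ 0 := by linarith
            have hd : z.1.2 - z.2.2 = z'.1.2 - z'.2.2 := by
              have : (z.1.2 - z.2.2) * (z.1.2 + z.2.2) = (z'.1.2 - z'.2.2) * (z.1.2 + z.2.2) := by
                rw [e1, hs, e2]
              exact mul_right_cancel₀ hpos this
            refine Prod.ext (Prod.ext ?_ ?_) (Prod.ext ?_ ?_)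
            · rw [h2.1, h3.1]
            · linarith
            · rw [h2.2, h3.2]
            · linarith
        have hkb : (k : ℝ) ≤ (4 * (A : ℝ) ^ 3 + 4) * (T : ℝ) ^ 12 := by
          have h1 : (k : ℤ) ≤ 4 * (A * (T : ℤ) ^ 4) ^ 3 := by
            rw [hk, Int.natCast_natAbs, abs_mul]
            have h2 : |m ^ 3 - m' ^ 3| ≤ (A * (T : ℤ) ^ 4) ^ 3 := by
              have q1 : m ^ 3 ≤ (A * (T : ℤ) ^ 4) ^ 3 := pow_le_pow_left₀ (by omega) hmm.1.2 3
              have q2 : m' ^ 3 ≤ (A * (T : ℤ) ^ 4) ^ 3 := pow_le_pow_left₀ (by omega) hmm.2.2 3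
              have q3 : 0 ≤ m ^ 3 := pow_nonneg (by omega) 3
              have q4 : 0 ≤ m' ^ 3 := pow_nonneg (by omega) 3
              rw [abs_le]
              constructor <;> linarith
            have h3 : |(4 : ℤ)| = 4 := by norm_num
            rw [h3]
            linarith
          have h2 : (k : ℝ) ≤ 4 * (A * (T : ℝ) ^ 4) ^ 3 := by exact_mod_cast h1
          have h3 : 0 ≤ (T : ℝ) ^ 12 := by positivity
          calc (k : ℝ) ≤ 4 * (A * (T : ℝ) ^ 4) ^ 3 := h2
            _ = 4 * (A : ℝ) ^ 3 * (T : ℝ) ^ 12 := by ring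
            _ ≤ _ := by
                apply mul_le_mul_of_nonneg_right _ h3
                linarith
        calc ((F2.filter (fun z => (z.1.1, z.2.1) = (m, m'))).card : ℝ) ≤ (k.divisors.card : ℝ) := by
              exact_mod_cast hcard
          _ ≤ C * (k : ℝ) ^ (ε / 12) := hdiv k hk0
          _ ≤ C * ((4 * (A : ℝ) ^ 3 + 4) * (T : ℝ) ^ 12) ^ (ε / 12) := by
              apply mul_le_mul_of_nonneg_left _ hC.le
              exact Real.rpow_le_rpow (Nat.cast_nonneg _) hkb hδ.le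
          _ = B := by
              have hr : ((T : ℝ) ^ 12) ^ (ε / 12) = (T : ℝ) ^ ε := by
                rw [← Real.rpow_natCast (T : ℝ) 12, ← Real.rpow_mul hT0]
                congr 1
                push_cast
                ring
              rw [Real.mul_rpow (by positivity) (by positivity), hB, hr]
              ring
  have hfin : (F2.card : ℝ) ≤ ((A : ℝ) ^ 2 + 1) * (C * (4 * (A : ℝ) ^ 3 + 4) ^ (ε / 12)) *
      (T : ℝ) ^ (8 + ε) := by
    have h1 : (F2.card : ℝ) ≤ (⌊B⌋₊ : ℝ) * ((I ×ˢ I).card : ℝ) := by exact_mod_cast hc2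
    have h2 : ((I ×ˢ I).card : ℝ) = (A : ℝ) ^ 2 * (T : ℝ) ^ 8 := by
      rw [card_product]
      push_cast
      rw [hIc]
      ring
    rw [h2] at h1
    have h3 : (⌊B⌋₊ : ℝ) ≤ B := Nat.floor_le hB0
    have h4 : (T : ℝ) ^ (8 + ε) = (T : ℝ) ^ 8 * (T : ℝ) ^ ε := by
      rw [Real.rpow_add (by positivity)]
      congr 1
      exact_mod_cast Real.rpow_natCast (T : ℝ) 8
    calc (F2.card : ℝ) ≤ (⌊B⌋₊ : ℝ) * ((A : ℝ) ^ 2 * (T : ℝ) ^ 8) := h1
      _ ≤ B * ((A : ℝ) ^ 2 * (T : ℝ) ^ 8) := mul_le_mul_of_nonneg_right h3 (by positivity)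
      _ ≤ B * (((A : ℝ) ^ 2 + 1) * (T : ℝ) ^ 8) := by
          apply mul_le_mul_of_nonneg_left _ hB0
          apply mul_le_mul_of_nonneg_right _ (by positivity)
          linarith
      _ = _ := by
          rw [h4, hB]
          ring
  have hF' : (F.card : ℝ) = F1.card + F2.card := by exact_mod_cast hsplit
  have hc1' : (F1.card : ℝ) ≤ V.card := by exact_mod_cast hc1
  rw [hF']
  linarith

theorem t_BV1 : S_BV1 := by
  classical
  intro A
  refine ⟨2000 * (A : ℝ) ^ 2 + 1, by positivity, ?_⟩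
  intro T hT V hV
  have hT1 : (1 : ℝ) ≤ T := by exact_mod_cast hT
  set k : ℕ := T ^ 3 / 1000 with hk
  set n : ℕ := A * T ^ 4 + 1 with hn
  -- the cover
  let G : ℕ → Finset (ℤ × ℤ) := fun q =>
    (range (A * T ^ 4 / q) ×ˢ range (A * T ^ 6 / q)).image
      (fun z : ℕ × ℕ => (((q * (z.1 + 1) : ℕ) : ℤ), ((q * (z.2 + 1) : ℕ) : ℤ)))
  have hcov : V ⊆ (Ioo k n).biUnion G := by
    intro v hv
    obtain ⟨⟨v1, v2, v3, v4⟩, q, hq, hq1, hq2, ⟨a, ha⟩, ⟨b, hb⟩⟩ := hV v hv
    have hq0 : (0 : ℤ) < q := by exact_mod_cast hq.pos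
    have ha0 : 0 < a := by
      by_contra h
      push Not at h
      have := mul_nonpos_of_nonneg_of_nonpos hq0.le h
      rw [← ha] at this
      omega
    have hb0 : 0 < b := by
      by_contra h
      push Not at h
      have := mul_nonpos_of_nonneg_of_nonpos hq0.le h
      rw [← hb] at this
      omega
    obtain ⟨a', rfl⟩ := Int.eq_ofNat_of_zero_le ha0.le
    obtain ⟨b', rfl⟩ := Int.eq_ofNat_of_zero_le hb0.le
    have ha' : q * a' ≤ A * T ^ 4 := by
      have : ((q * a' : ℕ) : ℤ) ≤ ((A * T ^ 4 : ℕ) : ℤ) := by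
        push_cast
        rw [← ha]
        exact v2
      exact_mod_cast this
    have hb' : q * b' ≤ A * T ^ 6 := by
      have : ((q * b' : ℕ) : ℤ) ≤ ((A * T ^ 6 : ℕ) : ℤ) := by
        push_cast
        rw [← hb]
        exact v4
      exact_mod_cast this
    have ha1 : 1 ≤ a' := by exact_mod_cast ha0
    have hb1 : 1 ≤ b' := by exact_mod_cast hb0
    rw [mem_biUnion]
    refine ⟨q, ?_, ?_⟩
    · rw [mem_Ioo]
      refine ⟨?_, ?_⟩
      · rw [hk]
        omega
      · rw [hn]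
        have : q * 1 ≤ q * a' := Nat.mul_le_mul_left q ha1
        omega
    · rw [mem_image]
      refine ⟨(a' - 1, b' - 1), ?_, ?_⟩
      · rw [mem_product, mem_range, mem_range]
        have h1 : a' ≤ A * T ^ 4 / q := (Nat.le_div_iff_mul_le hq.pos).2 (by rw [mul_comm]; exact ha')
        have h2 : b' ≤ A * T ^ 6 / q := (Nat.le_div_iff_mul_le hq.pos).2 (by rw [mul_comm]; exact hb')
        constructor
        · show a' - 1 < _
          omega
        · show b' - 1 < _
          omega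
      · have h1 : a' - 1 + 1 = a' := by omega
        have h2 : b' - 1 + 1 = b' := by omega
        refine Prod.ext ?_ ?_
        · show ((q * (a' - 1 + 1) : ℕ) : ℤ) = v.1
          rw [h1, ha]
          push_cast
          rfl
        · show ((q * (b' - 1 + 1) : ℕ) : ℤ) = v.2
          rw [h2, hb]
          push_cast
          rfl
  have hcard : (V.card : ℝ) ≤ ∑ q ∈ Ioo k n, (A : ℝ) ^ 2 * (T : ℝ) ^ 10 * ((q : ℝ) ^ 2)⁻¹ := by
    have h1 : V.card ≤ ∑ q ∈ Ioo k n, (G q).card := (card_le_card hcov).trans card_biUnion_le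
    have h2 : (V.card : ℝ) ≤ ∑ q ∈ Ioo k n, ((G q).card : ℝ) := by exact_mod_cast h1
    refine h2.trans (sum_le_sum fun q hq => ?_)
    rw [mem_Ioo] at hq
    have hq0 : 0 < q := by omega
    have h3 : (G q).card ≤ (A * T ^ 4 / q) * (A * T ^ 6 / q) := by
      refine card_image_le.trans ?_
      rw [card_product, card_range, card_range]
    have h4 : ((G q).card : ℝ) ≤ ((A * T ^ 4 / q : ℕ) : ℝ) * ((A * T ^ 6 / q : ℕ) : ℝ) := by
      exact_mod_cast h3
    have h5 : ((A * T ^ 4 / q : ℕ) : ℝ) ≤ (A * (T : ℝ) ^ 4) / q := by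
      refine Nat.cast_div_le.trans ?_
      push_cast
      exact le_rfl
    have h6 : ((A * T ^ 6 / q : ℕ) : ℝ) ≤ (A * (T : ℝ) ^ 6) / q := by
      refine Nat.cast_div_le.trans ?_
      push_cast
      exact le_rfl
    have hq0' : (0 : ℝ) < q := by exact_mod_cast hq0
    calc ((G q).card : ℝ) ≤ ((A * T ^ 4 / q : ℕ) : ℝ) * ((A * T ^ 6 / q : ℕ) : ℝ) := h4
      _ ≤ ((A * (T : ℝ) ^ 4) / q) * ((A * (T : ℝ) ^ 6) / q) :=
          mul_le_mul h5 h6 (Nat.cast_nonneg _) (by positivity)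
      _ = (A : ℝ) ^ 2 * (T : ℝ) ^ 10 * ((q : ℝ) ^ 2)⁻¹ := by
          field_simp
  have hsum : ∑ q ∈ Ioo k n, ((q : ℝ) ^ 2)⁻¹ ≤ 2 / ((k : ℝ) + 1) := sum_Ioo_inv_sq_le k n
  rw [← mul_sum] at hcard
  have hk1 : (T : ℝ) ^ 3 ≤ 1000 * ((k : ℝ) + 1) := by
    have : T ^ 3 ≤ 1000 * (k + 1) := by
      rw [hk]
      omega
    exact_mod_cast this
  have hk2 : 2 / ((k : ℝ) + 1) ≤ 2000 / (T : ℝ) ^ 3 := by
    rw [div_le_div_iff₀ (by positivity) (by positivity)]
    linarith
  have hAT : 0 ≤ (A : ℝ) ^ 2 * (T : ℝ) ^ 10 := by positivity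
  calc (V.card : ℝ) ≤ (A : ℝ) ^ 2 * (T : ℝ) ^ 10 * ∑ q ∈ Ioo k n, ((q : ℝ) ^ 2)⁻¹ := hcard
    _ ≤ (A : ℝ) ^ 2 * (T : ℝ) ^ 10 * (2000 / (T : ℝ) ^ 3) :=
        mul_le_mul_of_nonneg_left (hsum.trans hk2) hAT
    _ = 2000 * (A : ℝ) ^ 2 * (T : ℝ) ^ 7 := by
        field_simp
    _ ≤ (2000 * (A : ℝ) ^ 2 + 1) * (T : ℝ) ^ 7 := by
        apply mul_le_mul_of_nonneg_right _ (by positivity)
        linarith

end Pool.Agent.H44.C3
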